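import Mathlib

set_option autoImplicit false

namespace Pool.Agent.H.MP_993692_co

open Finset

variable {V : Type} [DecidableEq V]

def sh (r : ℕ) : List ℕ → List ℕ
  | [] => []
  | c :: l => (c + r) :: l

def near (a b : List ℕ) : Prop := a = b ∨ ∃ c, b = a ++ [c] ∨ a = b ++ [c]

lemma sh_app (r : ℕ) (a : List ℕ) (c : ℕ) : ∃ c', sh r (a ++ [c]) = sh r a ++ [c'] := by
  cases a with
  | nil => exact ⟨c + r, rfl⟩
  | cons x l => exact ⟨c, rfl⟩

lemma near_sh (r : ℕ) {a b : List ℕ} (h : near a b) : near (sh r a) (sh r b) := by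
  rcases h with rfl | ⟨c, rfl | rfl⟩
  · exact .inl rfl
  · obtain ⟨c', h⟩ := sh_app r a c; exact .inr ⟨c', .inl h⟩
  · obtain ⟨c', h⟩ := sh_app r b c; exact .inr ⟨c', .inr h⟩

lemma near_cons (x : ℕ) {a b : List ℕ} (h : near a b) : near (x :: a) (x :: b) := by
  rcases h with rfl | ⟨c, rfl | rfl⟩
  · exact .inl rfl
  · exact .inr ⟨c, .inl rfl⟩
  · exact .inr ⟨c, .inr rfl⟩

lemma sub1 {S U A X : Finset V} (h : S ⊆ U) : S ∩ A ∪ X ∩ U ⊆ U ∩ (A ∪ X) :=
  fun y hy => by have := @h y; grind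

lemma sub2 {S U A X : Finset V} (h : S ⊆ U) (dj : ∀ y ∈ A, y ∉ X) :
    S \ (A ∪ X) ∪ X ∩ U ⊆ U \ A :=
  fun y hy => by have := @h y; have := dj y; grind

lemma sub3 {S U A X : Finset V} (h : S ⊆ U) {y : V} (hy : y ∈ S) (hA : y ∉ A) :
    y ∈ S \ (A ∪ X) ∪ X ∩ U := by have := @h y; grind

def TP (R : V → V → Prop) (K M : ℕ) (U S : Finset V) : Prop :=
  ∃ (ω : V → List ℕ) (r : ℕ), (∀ x ∈ S, ω x = []) ∧
    ((U.filter fun x => ω x = []).card ≤ S.card ∨
      (U.filter fun x => ω x = []).card + 4 * K ≤ 2 * S.card) ∧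
    (r ≤ 1 ∨ r + 4 * K ≤ 2 * S.card) ∧ (∀ x ∈ U, ∀ c l, ω x = c :: l → c < r) ∧
    (∀ x ∈ U, ∀ c ∈ ω x, c < 2 * M) ∧ (∀ l, (U.filter fun x => ω x = l).card ≤ 2 * M) ∧
    ∀ x ∈ U, ∀ y ∈ U, R x y → near (ω x) (ω y)

theorem tp (R : V → V → Prop) (hs : ∀ x y, R x y → R y x) (K d : ℕ) (hK : 1 ≤ K) (hd : 1 ≤ d)
    (nb : V → Finset V) (hnb : ∀ x y, R x y → y ∈ nb x) (hd' : ∀ x, (nb x).card ≤ d)
    (sep : ∀ S : Finset V, 16 * K ≤ S.card → ∃ A X : Finset V, X.card ≤ K ∧ Disjoint A X ∧
      (∀ x ∈ A, ∀ y, R x y → y ∈ A ∨ y ∈ X) ∧ 4 * K ≤ (S ∩ A).card ∧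
      4 * K ≤ (S \ (A ∪ X)).card) :
    ∀ (n : ℕ) (U : Finset V), U.card = n → ∀ S ⊆ U, (S.Nonempty ∨ U = ∅) →
      S.card ≤ 16 * K * d → TP R K (16 * K * d) U S := by
  intro n
  induction n using Nat.strong_induction_on with
  | _ n ih =>
  intro U hU S hSU hne hS
  have hM : 1 ≤ 16 * K * d := Nat.mul_pos (by omega) hd
  rcases hne with hne | rfl
  swap
  · exact ⟨fun _ => [], 0, fun _ _ => rfl, by simp, by simp, by simp, by simp, by simp, by simp⟩
  by_cases hc : S.card ≤ 16 * K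
  · have hlt : (U \ S).card < n := by
      rw [← hU]; exact card_lt_card (sdiff_ssubset hSU hne)
    obtain ⟨S', s1, s2, s3, s4⟩ : ∃ S' ⊆ U \ S, (S'.Nonempty ∨ U \ S = ∅) ∧
        S'.card ≤ 16 * K * d ∧ ∀ x ∈ S, ∀ y ∈ U \ S, R x y → y ∈ S' := by
      by_cases h : (S.biUnion nb ∩ (U \ S)).Nonempty
      · refine ⟨_, inter_subset_right, .inl h, (card_le_card inter_subset_left).trans
          ((card_biUnion_le_card_mul _ _ _ fun x _ => hd' x).trans (Nat.mul_le_mul_right d hc)),
          fun x hx y hy hr => mem_inter.2 ⟨mem_biUnion.2 ⟨x, hx, hnb x y hr⟩, hy⟩⟩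
      · have h' : ∀ x ∈ S, ∀ y ∈ U \ S, ¬ R x y := fun x hx y hy hr =>
          h ⟨y, mem_inter.2 ⟨mem_biUnion.2 ⟨x, hx, hnb x y hr⟩, hy⟩⟩
        rcases (U \ S).eq_empty_or_nonempty with e | ⟨v, hv⟩
        · exact ⟨∅, empty_subset _, .inr e, by simp, fun x hx y hy hr => (h' x hx y hy hr).elim⟩
        · exact ⟨{v}, by simpa using hv, .inl (by simp), by simpa using hM,
            fun x hx y hy hr => (h' x hx y hy hr).elim⟩
    obtain ⟨ω, r, b1, -, -, -, b5, b6, b7⟩ := ih _ hlt _ rfl S' s1 s2 s3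
    have c0 : (U.filter fun x => (if x ∈ S then [] else 0 :: ω x) = []).card ≤ S.card :=
      card_le_card fun x hx => by
        have := (mem_filter.1 hx).2
        by_contra h; simp [h] at this
    refine ⟨fun x => if x ∈ S then [] else 0 :: ω x, 1, fun x hx => if_pos hx, .inl c0,
      .inl le_rfl, ?_, ?_, ?_, ?_⟩
    · intro x _ c l h
      by_cases hx : x ∈ S
      · simp [hx] at h
      · simp only [hx, if_false, List.cons.injEq] at h; omega
    · intro x hx c h
      by_cases hx' : x ∈ S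
      · simp [hx'] at h
      · simp only [hx', if_false, List.mem_cons] at h
        rcases h with rfl | h
        · omega
        · exact b5 x (mem_sdiff.2 ⟨hx, hx'⟩) c h
    · rintro (_ | ⟨c, l⟩)
      · exact c0.trans (by omega)
      · refine le_trans (card_le_card fun x hx => ?_) (b6 l)
        obtain ⟨h1, h2⟩ := mem_filter.1 hx
        by_cases hx' : x ∈ S
        · simp [hx'] at h2
        · simp only [hx', if_false, List.cons.injEq] at h2
          exact mem_filter.2 ⟨mem_sdiff.2 ⟨h1, hx'⟩, h2.2⟩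
    · intro x hx y hy hr
      by_cases hx' : x ∈ S <;> by_cases hy' : y ∈ S <;> simp only [hx', hy', if_true, if_false]
      · exact .inl rfl
      · rw [b1 y (s4 x hx' y (mem_sdiff.2 ⟨hy, hy'⟩) hr)]; exact .inr ⟨0, .inl rfl⟩
      · rw [b1 x (s4 y hy' x (mem_sdiff.2 ⟨hx, hx'⟩) (hs _ _ hr))]; exact .inr ⟨0, .inr rfl⟩
      · exact near_cons 0 (b7 x (mem_sdiff.2 ⟨hx, hx'⟩) y (mem_sdiff.2 ⟨hy, hy'⟩) hr)
  · obtain ⟨A, X, x1, x2, x3, x4, x5⟩ := sep S (by omega)
    have dj : ∀ y ∈ A, y ∉ X := fun y hy => disjoint_left.1 x2 hy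
    have c0 : (S ∩ A).card + (S \ (A ∪ X)).card ≤ S.card := by
      rw [← card_union_of_disjoint (disjoint_left.2 fun y h1 h2 => by simp_all)]
      exact card_le_card (union_subset inter_subset_left sdiff_subset)
    have cX : (X ∩ U).card ≤ K := (card_le_card inter_subset_left).trans x1
    have c1 := card_union_le (S ∩ A) (X ∩ U)
    have c2 := card_union_le (S \ (A ∪ X)) (X ∩ U)
    have c3 := card_le_card (subset_union_left (s₁ := S ∩ A) (s₂ := X ∩ U))
    have c4 := card_le_card (subset_union_left (s₁ := S \ (A ∪ X)) (s₂ := X ∩ U))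
    have l1 : (U ∩ (A ∪ X)).card < n := by
      obtain ⟨v, hv⟩ := card_pos.1 (show 0 < (S \ (A ∪ X)).card by omega)
      rw [← hU]
      refine card_lt_card ⟨inter_subset_left, fun h => ?_⟩
      exact (mem_sdiff.1 hv).2 (mem_inter.1 (h (hSU (mem_sdiff.1 hv).1))).2
    have l2 : (U \ A).card < n := by
      obtain ⟨v, hv⟩ := card_pos.1 (show 0 < (S ∩ A).card by omega)
      rw [← hU]
      refine card_lt_card ⟨sdiff_subset, fun h => ?_⟩
      exact (mem_sdiff.1 (h (hSU (mem_inter.1 hv).1))).2 (mem_inter.1 hv).2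
    obtain ⟨ω1, r1, p1, p2, p3, p4, p5, p6, p7⟩ := ih _ l1 _ rfl (S ∩ A ∪ X ∩ U)
      (sub1 hSU) (.inl (card_pos.1 (by omega))) (by omega)
    obtain ⟨ω2, r2, q1, q2, q3, q4, q5, q6, q7⟩ := ih _ l2 _ rfl (S \ (A ∪ X) ∪ X ∩ U)
      (sub2 hSU dj) (.inl (card_pos.1 (by omega)))
      (by omega)
    have e1 : ∀ y ∈ U ∩ (A ∪ X), (if y ∈ A then ω1 y else sh r1 (ω2 y)) = ω1 y := by
      intro y hy
      split_ifs with h
      · rfl
      · have h2 : y ∈ X := (mem_union.1 (mem_inter.1 hy).2).resolve_left h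
        have h3 := (mem_inter.1 hy).1
        rw [p1 y (by simp [h2, h3]), q1 y (by simp [h2, h3])]; rfl
    have cB : (U.filter fun y => (if y ∈ A then ω1 y else sh r1 (ω2 y)) = []).card + 4 * K ≤
        2 * S.card := by
      have : (U.filter fun y => (if y ∈ A then ω1 y else sh r1 (ω2 y)) = []) ⊆
          ((U ∩ (A ∪ X)).filter fun x => ω1 x = []) ∪ (U \ A).filter fun x => ω2 x = [] := by
        intro y hy
        obtain ⟨h1, h2⟩ := mem_filter.1 hy
        by_cases h : y ∈ A
        · rw [if_pos h] at h2; simp [h1, h, h2]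
        · rw [if_neg h] at h2
          refine mem_union_right _ (mem_filter.2 ⟨mem_sdiff.2 ⟨h1, h⟩, ?_⟩)
          cases h3 : ω2 y with
          | nil => rfl
          | cons c l => rw [h3] at h2; simp [sh] at h2
      have := (card_le_card this).trans (card_union_le _ _)
      omega
    have cr : r1 + r2 + 4 * K ≤ 2 * S.card := by omega
    refine ⟨fun y => if y ∈ A then ω1 y else sh r1 (ω2 y), r1 + r2, ?_, .inr cB, .inr cr,
      ?_, ?_, ?_, ?_⟩
    · intro y hy
      by_cases h : y ∈ A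
      · simp only [h, if_true]; exact p1 y (by simp [hy, h])
      · simp only [h, if_false]
        rw [q1 y (sub3 hSU hy h)]; rfl
    · intro y hy c l h
      by_cases hA : y ∈ A
      · simp only [hA, if_true] at h
        have := p4 y (by simp [hy, hA]) c l h; omega
      · simp only [hA, if_false] at h
        cases h3 : ω2 y with
        | nil => rw [h3] at h; simp [sh] at h
        | cons c' l' =>
          rw [h3] at h; simp only [sh, List.cons.injEq] at h
          have := q4 y (mem_sdiff.2 ⟨hy, hA⟩) c' l' h3; omega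
    · intro y hy c h
      by_cases hA : y ∈ A
      · simp only [hA, if_true] at h
        exact p5 y (by simp [hy, hA]) c h
      · simp only [hA, if_false] at h
        cases h3 : ω2 y with
        | nil => rw [h3] at h; simp [sh] at h
        | cons c' l' =>
          rw [h3] at h; simp only [sh, List.mem_cons] at h
          rcases h with rfl | h
          · have := q4 y (mem_sdiff.2 ⟨hy, hA⟩) c' l' h3; omega
          · exact q5 y (mem_sdiff.2 ⟨hy, hA⟩) c (by simp [h3, h])
    · rintro (_ | ⟨c, l⟩)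
      · beta_reduce; omega
      by_cases h : c < r1
      · refine le_trans (card_le_card fun y hy => ?_) (p6 (c :: l))
        obtain ⟨h1, h2⟩ := mem_filter.1 hy
        by_cases hA : y ∈ A
        · simp only [hA, if_true] at h2; simp [h1, hA, h2]
        · simp only [hA, if_false] at h2
          cases h3 : ω2 y with
          | nil => rw [h3] at h2; simp [sh] at h2
          | cons c' l' => rw [h3] at h2; simp only [sh, List.cons.injEq] at h2; omega
      · refine le_trans (card_le_card fun y hy => ?_) (q6 ((c - r1) :: l))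
        obtain ⟨h1, h2⟩ := mem_filter.1 hy
        by_cases hA : y ∈ A
        · simp only [hA, if_true] at h2
          exact absurd (p4 y (by simp [h1, hA]) c l h2) h
        · simp only [hA, if_false] at h2
          refine mem_filter.2 ⟨mem_sdiff.2 ⟨h1, hA⟩, ?_⟩
          cases h3 : ω2 y with
          | nil => rw [h3] at h2; simp [sh] at h2
          | cons c' l' =>
            rw [h3] at h2; simp only [sh, List.cons.injEq] at h2 ⊢
            exact ⟨by omega, h2.2⟩
    · intro x hx y hy hr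
      by_cases h : x ∈ A ∨ y ∈ A
      · have hx1 : x ∈ U ∩ (A ∪ X) := mem_inter.2 ⟨hx, mem_union.2
          (h.elim .inl fun h => x3 y h x (hs _ _ hr))⟩
        have hy1 : y ∈ U ∩ (A ∪ X) := mem_inter.2 ⟨hy, mem_union.2
          (h.elim (fun h => x3 x h y hr) .inl)⟩
        beta_reduce
        rw [e1 x hx1, e1 y hy1]
        exact p7 x hx1 y hy1 hr
      · rw [not_or] at h
        simp only [h.1, h.2, if_false]
        exact near_sh r1 (q7 x (mem_sdiff.2 ⟨hx, h.1⟩) y (mem_sdiff.2 ⟨hy, h.2⟩) hr)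

end Pool.Agent.H.MP_993692_co
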