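import Mathlib
import Pool.Agent.H.MP_993692_co.A
import Pool.Agent.H.MP_de06d2_co.B

set_option autoImplicit false

namespace Pool.Agent.H.MP_993692_co

open Finset Polynomial

lemma generic {E ι : Type} [AddCommGroup E] [Module ℝ E] (f : ι → E → ℝ)
    (hf : ∀ i p r, ∃ P : ℝ[X], ∀ t : ℝ, f i (p + t • r) = P.eval t) (s : Finset ι)
    (h : ∀ i ∈ s, ∃ p, f i p ≠ 0) : ∃ p, ∀ i ∈ s, f i p ≠ 0 := by
  classical
  induction s using Finset.induction_on with
  | empty => exact ⟨0, by simp⟩
  | insert j s _ ih =>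
    obtain ⟨p, hp⟩ := ih fun i hi => h i (mem_insert_of_mem hi)
    obtain ⟨q, hq⟩ := h j (mem_insert_self _ _)
    choose P hP using fun i => hf i p (q - p)
    have hne : ∀ i ∈ insert j s, P i ≠ 0 := by
      intro i hi e
      rcases mem_insert.1 hi with rfl | hi
      · have := hP i 1; rw [e] at this; simp at this; exact hq this
      · have := hP i 0; rw [e] at this; simp at this; exact hp i hi this
    have := (prod_ne_zero_iff.2 hne)
    obtain ⟨t, ht⟩ := Infinite.exists_notMem_finset (∏ i ∈ insert j s, P i).roots.toFinset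
    rw [Multiset.mem_toFinset, mem_roots this, IsRoot, eval_prod, prod_eq_zero_iff] at ht
    exact ⟨p + t • (q - p), fun i hi e => ht ⟨i, hi, by rw [← hP, e]⟩⟩

lemma unit_tr : ∃ a : ℂ, ‖a‖ = 1 ∧ Transcendental ℚ a := by
  by_contra hn
  push Not at hn
  have h1 : (Set.Icc (-1 : ℝ) 1).Countable := by
    refine ((Algebraic.countable ℚ ℂ).image Complex.re).mono fun x hx => ?_
    refine ⟨Complex.exp (Real.arccos x * Complex.I), not_not.1 (hn _ (by simp)), ?_⟩
    rw [Complex.exp_ofReal_mul_I_re, Real.cos_arccos hx.1 hx.2]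
  have := h1.measure_zero MeasureTheory.volume
  simp at this
  norm_num at this

/-- position of the point with word `l` and label `x`. -/
noncomputable def pos (a : ℂ) (θ : ℕ ⊕ ℕ → ℂ) : List ℕ → ℕ → ℂ
  | [], x => θ (.inr x)
  | c :: l, x => θ (.inl c) + a * pos a θ l x

lemma pos_add (a : ℂ) (θ η : ℕ ⊕ ℕ → ℂ) (t : ℂ) (l : List ℕ) (x : ℕ) :
    pos a (θ + t • η) l x = pos a θ l x + t * pos a η l x := by
  induction l with
  | nil => simp [pos]
  | cons c l ih => simp only [pos, ih, Pi.add_apply, Pi.smul_apply, smul_eq_mul]; ring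

lemma pos_same (a : ℂ) (θ : ℕ ⊕ ℕ → ℂ) (l : List ℕ) (x y : ℕ) :
    pos a θ l x - pos a θ l y = a ^ l.length * (θ (.inr x) - θ (.inr y)) := by
  induction l with
  | nil => simp [pos]
  | cons c l ih => simp only [pos, List.length_cons]; linear_combination a * ih

lemma pos_app (a : ℂ) (θ : ℕ ⊕ ℕ → ℂ) (l : List ℕ) (c x y : ℕ) :
    pos a θ (l ++ [c]) x - pos a θ l y =
      a ^ l.length * (θ (.inl c) + a * θ (.inr x) - θ (.inr y)) := by
  induction l with
  | nil => simp [pos]
  | cons c l ih => simp only [pos, List.length_cons, List.cons_append]; linear_combination a * ih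

lemma pos_lab (a : ℂ) (j : ℕ) (l : List ℕ) (x : ℕ) :
    pos a (Pi.single (.inr j) 1) l x = if x = j then a ^ l.length else 0 := by
  induction l with
  | nil => simp [pos, Pi.single_apply]
  | cons c l ih => simp only [pos, ih, List.length_cons]; split_ifs <;> simp [pow_succ']

noncomputable def pp (j : ℕ ⊕ ℕ) : List ℕ → ℕ → ℚ[X]
  | [], x => if j = .inr x then 1 else 0
  | c :: l, x => (if j = .inl c then 1 else 0) + X * pp j l x

lemma pos_pp (a : ℂ) (j : ℕ ⊕ ℕ) (l : List ℕ) (x : ℕ) :
    pos a (Pi.single j 1) l x = aeval a (pp j l x) := by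
  induction l with
  | nil => simp only [pos, pp, Pi.single_apply, eq_comm]; split_ifs <;> simp
  | cons c l ih =>
    simp only [pos, pp, ih, Pi.single_apply, eq_comm, map_add, map_mul, aeval_X]
    split_ifs <;> simp

lemma pp_inj (l : List ℕ) : ∀ (l' : List ℕ) (x y : ℕ), (∀ j, pp j l x = pp j l' y) →
    l = l' ∧ x = y := by
  induction l with
  | nil =>
    rintro (_ | ⟨c, l'⟩) x y h
    · have := h (.inr x)
      simp only [pp, if_true, Sum.inr.injEq] at this
      exact ⟨rfl, by_contra fun e => by simp [e] at this⟩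
    · have := congrArg (eval 0) (h (.inr x))
      simp [pp] at this
  | cons c l ih =>
    rintro (_ | ⟨c', l'⟩) x y h
    · have := congrArg (eval 0) (h (.inr y))
      simp [pp] at this
    · have e : c = c' := by
        have := congrArg (eval 0) (h (.inl c))
        by_contra e
        simp [pp, e] at this
      subst e
      obtain ⟨h1, h2⟩ := ih l' x y fun j => by
        have := h j
        simp only [pp, add_right_inj] at this
        exact mul_left_cancel₀ X_ne_zero this
      exact ⟨by rw [h1], h2⟩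

lemma pos_inj {a : ℂ} (ha : Transcendental ℚ a) {l l' : List ℕ} {x y : ℕ}
    (h : ∀ θ, pos a θ l x = pos a θ l' y) : l = l' ∧ x = y :=
  pp_inj l l' x y fun j => transcendental_iff_injective.1 ha (by rw [← pos_pp, ← pos_pp, h])

lemma prop {E : Type} [AddCommGroup E] [Module ℂ E] (F G : E → ℂ)
    (hF : ∀ p q (t : ℂ), F (p + t • q) = F p + t * F q)
    (hG : ∀ p q (t : ℂ), G (p + t • q) = G p + t * G q) (q : E) (hq : F q ≠ 0)
    (h : ∀ p, (G p * (starRingEnd ℂ) (F p)).im = 0) : ∀ p, G p * F q = G q * F p := by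
  intro p
  have h0 := h q
  have a := h p
  have b := h (p + (1 : ℂ) • q)
  have c := h (p + Complex.I • q)
  rw [hF, hG] at b c
  have key : G p * (starRingEnd ℂ) (F q) = (starRingEnd ℂ) (G q) * F p := by
    apply Complex.ext <;> simp at h0 a b c ⊢ <;> linarith
  have r : (starRingEnd ℂ) (G q) * F q = G q * (starRingEnd ℂ) (F q) := by
    apply Complex.ext <;> simp at h0 ⊢ <;> linarith
  apply mul_left_cancel₀ (show (starRingEnd ℂ) (F q) ≠ 0 by simpa using hq)
  linear_combination F q * key + F p * r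

lemma quad (L : ℂ →ₗ[ℝ] ℝ) (α β γ δ : ℂ) : ∃ P : ℝ[X], ∀ t : ℝ,
    L ((α + t * β) * (starRingEnd ℂ) (γ + t * δ)) = P.eval t := by
  refine ⟨C (L (α * (starRingEnd ℂ) γ)) + C (L (α * (starRingEnd ℂ) δ + β * (starRingEnd ℂ) γ)) * X
    + C (L (β * (starRingEnd ℂ) δ)) * X ^ 2, fun t => ?_⟩
  have : (α + t * β) * (starRingEnd ℂ) (γ + t * δ) = α * (starRingEnd ℂ) γ +
      t • (α * (starRingEnd ℂ) δ + β * (starRingEnd ℂ) γ) + (t ^ 2) • (β * (starRingEnd ℂ) δ) := by
    simp; ring
  rw [this, map_add, map_add, map_smul, map_smul]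
  simp only [eval_add, eval_mul, eval_C, eval_X, eval_pow, smul_eq_mul]; ring

theorem draw {V : Type} [Fintype V] (G : SimpleGraph V) (ω : V → List ℕ) (lab : V → ℕ)
    (hinj : ∀ u v, ω u = ω v → lab u = lab v → u = v) (hl : ∀ u v, G.Adj u v → lab u ≠ lab v) :
    ∃ (a : ℂ) (θ : ℕ ⊕ ℕ → ℂ), ‖a‖ = 1 ∧ (Function.Injective fun v => pos a θ (ω v) (lab v)) ∧
      ∀ u v w, G.Adj u v → w ≠ u → w ≠ v → ((pos a θ (ω w) (lab w) - pos a θ (ω u) (lab u)) *
        (starRingEnd ℂ) (pos a θ (ω v) (lab v) - pos a θ (ω u) (lab u))).im ≠ 0 := by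
  classical
  obtain ⟨a, a1, a2⟩ := unit_tr
  have a0 : a ≠ 0 := by rintro rfl; simp at a1
  let P : V → (ℕ ⊕ ℕ → ℂ) → ℂ := fun v θ => pos a θ (ω v) (lab v)
  have pi : ∀ u v, (∀ θ, P u θ = P v θ) → u = v := fun u v h =>
    hinj u v (pos_inj a2 h).1 (pos_inj a2 h).2
  have lin : ∀ u v p q (t : ℂ), P u (p + t • q) - P v (p + t • q) =
      (P u p - P v p) + t * (P u q - P v q) := fun u v p q t => by
    simp only [P, pos_add]; ring
  obtain ⟨θ, hθ⟩ := generic (E := ℕ ⊕ ℕ → ℂ) (ι := Bool × V × V × V)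
    (fun i θ => (if i.1 then Complex.imLm else Complex.reLm)
      ((P i.2.2.2 θ - P i.2.1 θ) * (starRingEnd ℂ) (P i.2.2.1 θ - P i.2.1 θ)))
    (fun i p r => by
      obtain ⟨Q, hQ⟩ := quad (if i.1 then Complex.imLm else Complex.reLm)
        (P i.2.2.2 p - P i.2.1 p) (P i.2.2.2 r - P i.2.1 r) (P i.2.2.1 p - P i.2.1 p)
        (P i.2.2.1 r - P i.2.1 r)
      refine ⟨Q, fun t => ?_⟩
      rw [← hQ, show t • r = (t : ℂ) • r from rfl, lin, lin])
    (univ.filter fun i => if i.1 then G.Adj i.2.1 i.2.2.1 ∧ i.2.2.2 ≠ i.2.1 ∧ i.2.2.2 ≠ i.2.2.1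
      else i.2.2.1 ≠ i.2.1 ∧ i.2.2.2 = i.2.2.1)
    (by
      rintro ⟨b, u, v, w⟩ hi
      replace hi := (mem_filter.1 hi).2
      by_contra hn
      push Not at hn
      cases b
      · simp only [Bool.false_eq_true, if_false] at hi hn
        obtain ⟨h1, rfl⟩ := hi
        refine h1 (pi _ _ fun θ => ?_)
        have := hn θ
        rw [Complex.mul_conj] at this
        exact sub_eq_zero.1 (by simpa using this)
      · simp only [if_true] at hi hn
        obtain ⟨h1, h2, h3⟩ := hi
        have l1 := hl u v h1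
        have fq : P v (Pi.single (.inr (lab v)) 1) - P u (Pi.single (.inr (lab v)) 1) ≠ 0 := by
          simp [P, pos_lab, l1, a0]
        have key := prop (fun θ => P v θ - P u θ) (fun θ => P w θ - P u θ) (lin v u) (lin w u)
          _ fq hn
        by_cases e : lab w = lab v
        · have k1 := key (Pi.single (.inr (lab u)) 1)
          have k2 : P w (Pi.single (.inr (lab v)) 1) - P u (Pi.single (.inr (lab v)) 1) =
              P v (Pi.single (.inr (lab v)) 1) - P u (Pi.single (.inr (lab v)) 1) := by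
            apply mul_left_cancel₀ (pow_ne_zero (ω u).length a0)
            simp only [P, pos_lab, e, l1.symm, if_true, if_false] at k1 ⊢
            linear_combination k1
          refine h3 (pi _ _ fun θ => ?_)
          have := key θ
          simp only [k2] at this
          have := mul_left_cancel₀ fq ((mul_comm _ _).trans this)
          linear_combination this
        · refine h2 (pi _ _ fun θ => ?_)
          have := key θ
          have k2 : P w (Pi.single (.inr (lab v)) 1) - P u (Pi.single (.inr (lab v)) 1) = 0 := by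
            simp [P, pos_lab, l1, e]
          simp only [k2, zero_mul] at this
          exact sub_eq_zero.1 ((mul_eq_zero.1 this).resolve_right fq))
  refine ⟨a, θ, a1, fun u v h => ?_, fun u v w h1 h2 h3 => ?_⟩
  · by_contra hne
    refine hθ (false, v, u, u) (by simpa using hne) ?_
    have : P u θ = P v θ := h
    simp [this]
  · exact hθ (true, u, v, w) (by simp [h1, h2, h3])

open Pool.Agent.H.MP_de06d2_co in
theorem words (k d : ℕ) : ∃ N : ℕ, ∀ (V : Type) [Fintype V] (G : SimpleGraph V) (ρ : V → ℕ)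
    (Bk : V → Finset V), Elim G k ρ Bk → (∀ v, (G.neighborSet v).ncard ≤ d) →
    ∃ (ω : V → List ℕ) (lab : V → ℕ), (∀ u v, ω u = ω v → lab u = lab v → u = v) ∧
      (∀ u v, G.Adj u v → lab u ≠ lab v) ∧ (∀ v, lab v < N) ∧ (∀ v, ∀ c ∈ ω v, c < N) ∧
      ∀ u v, G.Adj u v → near (ω u) (ω v) := by
  classical
  refine ⟨2 * (2 * (16 * (k + 1) * (d + 1))), fun V _ G ρ Bk E hd => ?_⟩
  have hM : 1 ≤ 16 * (k + 1) * (d + 1) := Nat.mul_pos (by omega) (by omega)
  obtain ⟨S, s1, s2⟩ : ∃ S : Finset V, (S.Nonempty ∨ (univ : Finset V) = ∅) ∧ S.card ≤ 1 := by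
    rcases isEmpty_or_nonempty V with h | ⟨⟨v⟩⟩
    · exact ⟨∅, .inr (by simp), by simp⟩
    · exact ⟨{v}, .inl (by simp), by simp⟩
  obtain ⟨ω, r, -, -, -, -, w1, w2, w3⟩ := tp G.Adj (fun _ _ h => h.symm) (k + 1) (d + 1)
    (by omega) (by omega) (fun x => (G.neighborSet x).toFinset) (fun x y h => by simpa using h)
    (fun x => by rw [← Set.ncard_eq_toFinset_card']; exact (hd x).trans (Nat.le_succ d))
    (fun S hS => by
      obtain ⟨A, X, x1, x2, x3, x4, x5⟩ := sep0 E S (4 * (k + 1)) (by omega) (by omega)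
      refine ⟨A, X, x1, x2, x3, x4, ?_⟩
      have : S ⊆ S \ (A ∪ X) ∪ (S ∩ A ∪ X) := fun y => by
        simp only [mem_union, mem_sdiff, mem_inter]; tauto
      have := (card_le_card this).trans (card_union_le _ _)
      have := card_union_le (S ∩ A) X
      omega) _ univ rfl S (subset_univ _) s1 (s2.trans hM)
  let ix : V → ℕ := fun v => (univ.filter fun u => ω u = ω v ∧ ρ u < ρ v).card
  have mono : ∀ u v, ω u = ω v → ρ u < ρ v → ix u < ix v := fun u v h1 h2 =>
    card_lt_card ⟨fun x hx => by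
      simp only [mem_filter, mem_univ, true_and] at hx ⊢
      exact ⟨hx.1.trans h1, hx.2.trans h2⟩, fun h => by
      have := h (show u ∈ _ by simp [h1, h2])
      simp at this⟩
  have inj : ∀ u v, ω u = ω v → ix u = ix v → u = v := fun u v h1 h2 => by
    rcases lt_trichotomy (ρ u) (ρ v) with e | e | e
    · exact absurd h2 (mono u v h1 e).ne
    · exact E.inj e
    · exact absurd h2 (mono v u h1.symm e).ne'
  refine ⟨ω, fun v => 2 * ix v + (ω v).length % 2, fun u v h1 h2 => inj u v h1 (by
    simp only at h2; omega), fun u v h e => ?_, fun v => ?_,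
    fun v c h => by have := w1 v (mem_univ _) c h; omega,
    fun u v h => w3 u (mem_univ _) v (mem_univ _) h⟩
  · simp only at e
    rcases w3 u (mem_univ _) v (mem_univ _) h with h' | ⟨c, h' | h'⟩
    · exact h.ne (inj u v h' (by omega))
    · have := congrArg List.length h'; simp at this; omega
    · have := congrArg List.length h'; simp at this; omega
  · have : ix v < (univ.filter fun u => ω u = ω v).card := card_lt_card ⟨fun x hx => by
      simp only [mem_filter, mem_univ, true_and] at hx ⊢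
      exact hx.1, fun h => by
      have := h (show v ∈ _ by simp)
      simp at this⟩
    have := w2 (ω v)
    simp only; omega

end Pool.Agent.H.MP_993692_co
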